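import Pool.Agent.Helper51.Flex.Goals

set_option autoImplicit false

/-!
# FX-CORE: the hypersurface `w² L(u) + f(u) = 1` immerses
-/

open Pool.Agent.Helper24.Cubic Pool.Agent.Helper51.Flex

namespace Pool.Agent.Helper45.Flex

theorem flexCore_of (h : FlexFun) : FlexCore := by
  intro n L f hf hf3
  obtain ⟨a, ha, hΔ⟩ := h
  have hinner : Differentiable ℂ (fun p : (Fin n → ℂ) × ℂ => ((p.2, L p.1) : ℂ × ℂ)) := by
    fun_prop
  refine ⟨fun p => Complex.exp (a (p.2, L p.1)) • p.1, by fun_prop, ?_⟩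
  rintro ⟨u, w⟩ hX ⟨v, s⟩ htan hker
  simp only at hX
  have hLd : HasFDerivAt (fun p : (Fin n → ℂ) × ℂ => L p.1)
      (L.comp (ContinuousLinearMap.fst ℂ (Fin n → ℂ) ℂ)) (u, w) :=
    HasFDerivAt.comp (u, w) (g := L) (f := Prod.fst) L.hasFDerivAt hasFDerivAt_fst
  have hfd : HasFDerivAt (fun p : (Fin n → ℂ) × ℂ => f p.1)
      ((fderiv ℂ f u).comp (ContinuousLinearMap.fst ℂ (Fin n → ℂ) ℂ)) (u, w) :=
    HasFDerivAt.comp (u, w) (g := f) (f := Prod.fst) (hf u).hasFDerivAt hasFDerivAt_fst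
  have h2d : HasFDerivAt (fun p : (Fin n → ℂ) × ℂ => p.2)
      (ContinuousLinearMap.snd ℂ (Fin n → ℂ) ℂ) (u, w) := hasFDerivAt_snd
  have hpair : HasFDerivAt (fun p : (Fin n → ℂ) × ℂ => ((p.2, L p.1) : ℂ × ℂ))
      ((ContinuousLinearMap.snd ℂ (Fin n → ℂ) ℂ).prod
        (L.comp (ContinuousLinearMap.fst ℂ (Fin n → ℂ) ℂ))) (u, w) := h2d.prodMk hLd
  have had : HasFDerivAt (fun p : (Fin n → ℂ) × ℂ => a (p.2, L p.1))
      ((fderiv ℂ a (w, L u)).comp ((ContinuousLinearMap.snd ℂ (Fin n → ℂ) ℂ).prod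
        (L.comp (ContinuousLinearMap.fst ℂ (Fin n → ℂ) ℂ)))) (u, w) :=
    HasFDerivAt.comp (u, w) (g := a) (ha (w, L u)).hasFDerivAt hpair
  set δ : ℂ := fderiv ℂ a (w, L u) (s, L v) with hδ
  have hker' : v + δ • u = 0 := by
    have h1 := (had.cexp).smul (hasFDerivAt_fst (𝕜 := ℂ) (p := (u, w)))
    change (fderiv ℂ ((fun x : (Fin n → ℂ) × ℂ => Complex.exp (a (x.2, L x.1))) • Prod.fst) (u, w))
      (v, s) = 0 at hker
    rw [h1.fderiv] at hker
    simp only [_root_.add_apply, _root_.smul_apply,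
      ContinuousLinearMap.smulRight_apply, ContinuousLinearMap.comp_apply,
      ContinuousLinearMap.prod_apply, ContinuousLinearMap.coe_fst',
      ContinuousLinearMap.coe_snd'] at hker
    rw [← hδ] at hker
    have h2 : Complex.exp (a (w, L u)) • (v + δ • u) = 0 := by
      rw [smul_add, smul_smul]
      exact hker
    exact (smul_eq_zero.mp h2).resolve_left (Complex.exp_ne_zero _)
  have hv : v = (-δ) • u := by
    rw [neg_smul]; exact eq_neg_of_add_eq_zero_left hker'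
  have hLv : L v = -(δ * L u) := by
    rw [hv, map_smul, smul_eq_mul]; ring
  have hfv : fderiv ℂ f u v = -(3 * δ * f u) := by
    rw [hv, map_smul, euler hf hf3 u, smul_eq_mul]; push_cast; ring
  have htan' : 2 * w * s * L u + w ^ 2 * L v + fderiv ℂ f u v = 0 := by
    have h1 := ((h2d.pow 2).mul hLd).add hfd
    have h2 : (fun p : (Fin n → ℂ) × ℂ => p.2 ^ 2 * L p.1 + f p.1) =
        ((fun p : (Fin n → ℂ) × ℂ => p.2 ^ 2) * fun p : (Fin n → ℂ) × ℂ => L p.1) +
          fun p : (Fin n → ℂ) × ℂ => f p.1 := rfl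
    rw [h2, h1.fderiv] at htan
    simp only [_root_.add_apply, _root_.smul_apply, ContinuousLinearMap.comp_apply,
      ContinuousLinearMap.coe_fst', ContinuousLinearMap.coe_snd', smul_eq_mul] at htan
    norm_num at htan
    linear_combination htan
  set aw : ℂ := fderiv ℂ a (w, L u) (1, 0) with haw
  set al : ℂ := fderiv ℂ a (w, L u) (0, 1) with hal
  have hlin : ∀ x y : ℂ, fderiv ℂ a (w, L u) (x, y) = x * aw + y * al := by
    intro x y
    have : ((x, y) : ℂ × ℂ) = x • ((1:ℂ), (0:ℂ)) + y • ((0:ℂ), (1:ℂ)) := by simp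
    rw [this, map_add, map_smul, map_smul, smul_eq_mul, smul_eq_mul]
  have hδ' : δ = s * aw + L v * al := by rw [hδ, hlin]
  have hΔ' := hΔ w (L u)
  rw [hlin] at hΔ'
  have hb : f u = 1 - w ^ 2 * L u := by linear_combination hX
  rw [hLv] at hδ' htan'
  rw [hfv, hb] at htan'
  have e1 : δ * (1 + L u * al) = s * aw := by linear_combination hδ'
  have e2 : 2 * w * L u * s + (2 * w ^ 2 * L u - 3) * δ = 0 := by linear_combination htan'
  have hδ0 : δ = 0 := by
    have : (2 * w * L u + ((2 * w ^ 2 * L u - 3) * aw + 2 * w * L u ^ 2 * al)) * δ = 0 := by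
      linear_combination (2 * w * L u) * e1 + aw * e2
    exact (mul_eq_zero.mp this).resolve_left hΔ'
  have hs0 : s = 0 := by
    have : (2 * w * L u + ((2 * w ^ 2 * L u - 3) * aw + 2 * w * L u ^ 2 * al)) * s = 0 := by
      linear_combination (1 + L u * al) * e2 - (2 * w ^ 2 * L u - 3) * e1
    exact (mul_eq_zero.mp this).resolve_left hΔ'
  rw [hδ0, neg_zero, zero_smul] at hv
  rw [hv, hs0]; rfl

end Pool.Agent.Helper45.Flex
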